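import Mathlib

set_option autoImplicit false

namespace R309.SG

/-- The group of all homeomorphisms `A` of the line with `f (A p) = f p` for all `p`. -/
def symm (f : ℝ → ℝ) : Subgroup (ℝ ≃ₜ ℝ) where
  carrier := {A | ∀ p, f (A p) = f p}
  mul_mem' := by
    intro A B hA hB p
    show f (A (B p)) = f p
    rw [hA, hB]
  one_mem' := fun p => rfl
  inv_mem' := by
    intro A hA p
    have h := hA (A⁻¹ p)
    have h2 : A (A⁻¹ p) = p := A.apply_symm_apply p
    rw [h2] at h
    exact h.symm

lemma mem_symm {f : ℝ → ℝ} {A : ℝ ≃ₜ ℝ} : A ∈ symm f ↔ ∀ p, f (A p) = f p := Iff.rfl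

lemma mul_app (A B : ℝ ≃ₜ ℝ) (x : ℝ) : (A * B) x = A (B x) := rfl

lemma inv_app (A : ℝ ≃ₜ ℝ) (x : ℝ) : A (A⁻¹ x) = x := A.apply_symm_apply x

lemma app_inv (A : ℝ ≃ₜ ℝ) (x : ℝ) : A⁻¹ (A x) = x := A.symm_apply_apply x

lemma mono_or_anti (A : ℝ ≃ₜ ℝ) : StrictMono A ∨ StrictAnti A :=
  A.continuous.strictMono_of_inj A.injective

lemma mono_mul {A B : ℝ ≃ₜ ℝ} (hA : StrictMono A) (hB : StrictMono B) :
    StrictMono (A * B : ℝ ≃ₜ ℝ) := hA.comp hB

lemma mono_inv {A : ℝ ≃ₜ ℝ} (hA : StrictMono A) : StrictMono (A⁻¹ : ℝ ≃ₜ ℝ) := by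
  intro x y h
  have : A (A⁻¹ x) < A (A⁻¹ y) := by rw [inv_app, inv_app]; exact h
  exact hA.lt_iff_lt.1 this

lemma mono_one : StrictMono (1 : ℝ ≃ₜ ℝ) := fun _ _ h => h

lemma anti_mul {A B : ℝ ≃ₜ ℝ} (hA : StrictAnti A) (hB : StrictAnti B) :
    StrictMono (A * B : ℝ ≃ₜ ℝ) := hA.comp hB

lemma anti_fix {A : ℝ ≃ₜ ℝ} (hA : StrictAnti A) : ∃ x, A x = x := by
  have hc : Continuous (fun x => A x - x) := A.continuous.sub continuous_id
  have h1 : ∃ a, A a - a ≤ 0 := by
    refine ⟨max 0 (A 0), ?_⟩
    have : A (max 0 (A 0)) ≤ A 0 := hA.antitone (le_max_left _ _)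
    have h2 := le_max_right 0 (A 0)
    linarith
  have h2 : ∃ a, 0 ≤ A a - a := by
    refine ⟨min 0 (A 0), ?_⟩
    have : A 0 ≤ A (min 0 (A 0)) := hA.antitone (min_le_left _ _)
    have h2 := min_le_right 0 (A 0)
    linarith
  obtain ⟨a, ha⟩ := h1
  obtain ⟨b, hb⟩ := h2
  obtain ⟨x, hx⟩ := mem_range_of_exists_le_of_exists_ge hc ⟨a, ha⟩ ⟨b, hb⟩
  exact ⟨x, by linarith [hx]⟩

/-- The tent function. -/
noncomputable def tent (a b x : ℝ) : ℝ := max 0 (min (x - a) (b - x))

lemma tent_lip (a b x y : ℝ) (h : x ≤ y) : |tent a b y - tent a b x| ≤ y - x := by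
  unfold tent
  have h1 := abs_max_sub_max_le_abs (min (y - a) (b - y)) (min (x - a) (b - x)) 0
  rw [max_comm (min (y - a) (b - y)), max_comm (min (x - a) (b - x))] at h1
  refine h1.trans ?_
  refine (abs_min_sub_min_le_max _ _ _ _).trans ?_
  rw [max_le_iff]
  constructor
  · rw [show y - a - (x - a) = y - x by ring, abs_of_nonneg (by linarith)]
  · rw [show b - y - (b - x) = -(y - x) by ring, abs_neg, abs_of_nonneg (by linarith)]

/-- The homeomorphism `x + t tent`. -/
lemma exists_push (a b t : ℝ) (ht0 : 0 ≤ t) (ht1 : t < 1) :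
    ∃ A : ℝ ≃ₜ ℝ, StrictMono A ∧ ∀ x, A x = x + t * tent a b x := by
  have hm : StrictMono (fun x => x + t * tent a b x) := by
    intro x y h
    have h1 := (abs_le.1 (tent_lip a b x y h.le)).1
    show x + t * tent a b x < y + t * tent a b y
    have h2 : t * (tent a b y - tent a b x) ≥ t * (-(y - x)) := by
      exact mul_le_mul_of_nonneg_left h1 ht0
    nlinarith
  have hc : Continuous (fun x => x + t * tent a b x) := by
    unfold tent; fun_prop
  have h0 : ∀ x, 0 ≤ tent a b x := fun x => le_max_left _ _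
  have h1 : ∀ x, tent a b x ≤ |b - a| := by
    intro x
    unfold tent
    rw [max_le_iff]
    refine ⟨abs_nonneg _, ?_⟩
    rcases le_total a x with h | h
    · exact (min_le_right _ _).trans (by linarith [le_abs_self (b - a)])
    · exact (min_le_left _ _).trans (by linarith [abs_nonneg (b - a)])
  have hs : Function.Surjective (fun x => x + t * tent a b x) := by
    refine hc.surjective ?_ ?_
    · refine Filter.tendsto_atTop_mono (fun x => ?_) Filter.tendsto_id
      show x ≤ x + t * tent a b x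
      nlinarith [h0 x]
    · refine Filter.tendsto_atBot_mono (fun x => ?_)
        (Filter.tendsto_atBot_add_const_right Filter.atBot |b - a| Filter.tendsto_id)
      show x + t * tent a b x ≤ x + |b - a|
      nlinarith [h0 x, h1 x]
  exact ⟨(hm.orderIsoOfSurjective _ hs).toHomeomorph, hm, fun x => rfl⟩

/-- If `f` is constant on an interval then its group is uncountable. -/
theorem NC {f : ℝ → ℝ} (hG : Countable (symm f)) {a b c : ℝ} (hab : a < b)
    (h : ∀ x, a < x → x < b → f x = c) : False := by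
  choose A hA1 hA2 using fun t : Set.Ioo (0 : ℝ) 1 => exists_push a b t.1 t.2.1.le t.2.2
  have hmem : ∀ t, A t ∈ symm f := by
    intro t x
    by_cases hx : a < x ∧ x < b
    · rw [h x hx.1 hx.2]
      apply h
      · have : A t a < A t x := hA1 t hx.1
        rw [hA2 t a] at this
        have h0 : tent a b a = 0 := by unfold tent; simp
        rw [h0] at this; linarith
      · have : A t x < A t b := hA1 t hx.2
        rw [hA2 t b] at this
        have h0 : tent a b b = 0 := by unfold tent; simp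
        rw [h0] at this; linarith
    · have h0 : tent a b x = 0 := by
        unfold tent
        rw [not_and_or] at hx
        rw [max_eq_left]
        rcases hx with hx | hx
        · exact (min_le_left _ _).trans (by linarith)
        · exact (min_le_right _ _).trans (by linarith)
      rw [hA2, h0]; simp
  have hinj : Function.Injective (fun t : Set.Ioo (0 : ℝ) 1 => (⟨A t, hmem t⟩ : symm f)) := by
    intro s t hst
    have h1 : A s = A t := congrArg Subtype.val hst
    have h2 : A s ((a + b) / 2) = A t ((a + b) / 2) := by rw [h1]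
    rw [hA2, hA2] at h2
    have h3 : 0 < tent a b ((a + b) / 2) := by
      unfold tent
      apply lt_max_of_lt_right
      apply lt_min <;> linarith
    apply Subtype.ext
    have h4 : s.1 * tent a b ((a + b) / 2) = t.1 * tent a b ((a + b) / 2) := by linarith
    exact mul_right_cancel₀ h3.ne' h4
  have hcount : Countable (Set.Ioo (0 : ℝ) 1) := hinj.countable
  have h5 : Cardinal.mk (Set.Ioo (0 : ℝ) 1) = Cardinal.continuum := Cardinal.mk_Ioo_real zero_lt_one
  have h6 : Cardinal.mk (Set.Ioo (0 : ℝ) 1) ≤ Cardinal.aleph0 := Cardinal.mk_le_aleph0_iff.2 hcount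
  rw [h5] at h6
  exact absurd Cardinal.aleph0_lt_continuum (not_lt.2 h6)

end R309.SG
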