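import Pool.Agent.R309.SG.Basic

set_option autoImplicit false

open Filter Topology

namespace R309.SG

/-- `f` is not constant on any nonempty open interval. -/
def NLC (f : ℝ → ℝ) : Prop :=
  ∀ a b c : ℝ, a < b → (∀ x, a < x → x < b → f x = c) → False

lemma NLC_of_countable {f : ℝ → ℝ} (hG : Countable (symm f)) : NLC f :=
  fun _ _ _ hab h => NC hG hab h

lemma pow_app (A : ℝ ≃ₜ ℝ) (n : ℕ) (x : ℝ) : (A ^ n) x = (A : ℝ → ℝ)^[n] x := by
  induction n generalizing x with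
  | zero => rfl
  | succ n ih => rw [pow_succ, mul_app, ih, Function.iterate_succ_apply]

lemma iter_mem {f : ℝ → ℝ} {A : ℝ ≃ₜ ℝ} (hA : A ∈ symm f) (n : ℕ) (x : ℝ) :
    f ((A : ℝ → ℝ)^[n] x) = f x := by
  rw [← pow_app]
  exact (symm f).pow_mem hA n x

lemma keyDown {f : ℝ → ℝ} (hf : Continuous f) (hG : NLC f) {A : ℝ ≃ₜ ℝ}
    (hA : A ∈ symm f) (hm : StrictMono A) {p x : ℝ} (hp : A p = p) (hpx : p ≤ x)
    (hx : A x < x) : False := by
  have hmi : ∀ n, Monotone ((A : ℝ → ℝ)^[n]) := fun n => hm.monotone.iterate n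
  have hanti : Antitone (fun n => (A : ℝ → ℝ)^[n] x) := by
    apply antitone_nat_of_succ_le
    intro n
    rw [Function.iterate_succ_apply]
    exact hmi n hx.le
  have hfix : ∀ (q : ℝ), A q = q → ∀ n, (A : ℝ → ℝ)^[n] q = q := fun q hq n =>
    Function.iterate_fixed hq n
  have hbdd : BddBelow (Set.range (fun n => (A : ℝ → ℝ)^[n] x)) := by
    refine ⟨p, ?_⟩
    rintro _ ⟨n, rfl⟩
    have := hmi n hpx
    rw [hfix p hp n] at this
    exact this
  have hlim := tendsto_atTop_ciInf hanti hbdd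
  set q := ⨅ n, (A : ℝ → ℝ)^[n] x with hq
  have hqf : A q = q := isFixedPt_of_tendsto_iterate hlim A.continuous.continuousAt
  have hqx : q < x := (ciInf_le hbdd 1).trans_lt hx
  refine hG _ _ (f q) hqx (fun z h1 h2 => ?_)
  have hz : Tendsto (fun n => (A : ℝ → ℝ)^[n] z) atTop (𝓝 q) := by
    refine tendsto_of_tendsto_of_tendsto_of_le_of_le tendsto_const_nhds hlim ?_ ?_
    · intro n
      have := hmi n h1.le
      rw [hfix q hqf n] at this
      exact this
    · intro n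
      exact hmi n h2.le
  have h3 : Tendsto (fun n => f ((A : ℝ → ℝ)^[n] z)) atTop (𝓝 (f q)) :=
    (hf.tendsto q).comp hz
  simp only [iter_mem hA] at h3
  exact tendsto_nhds_unique tendsto_const_nhds h3

lemma keyUp {f : ℝ → ℝ} (hf : Continuous f) (hG : NLC f) {A : ℝ ≃ₜ ℝ}
    (hA : A ∈ symm f) (hm : StrictMono A) {p x : ℝ} (hp : A p = p) (hpx : x ≤ p)
    (hx : x < A x) : False := by
  have hmi : ∀ n, Monotone ((A : ℝ → ℝ)^[n]) := fun n => hm.monotone.iterate n
  have hmono : Monotone (fun n => (A : ℝ → ℝ)^[n] x) := by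
    apply monotone_nat_of_le_succ
    intro n
    rw [Function.iterate_succ_apply]
    exact hmi n hx.le
  have hfix : ∀ (q : ℝ), A q = q → ∀ n, (A : ℝ → ℝ)^[n] q = q := fun q hq n =>
    Function.iterate_fixed hq n
  have hbdd : BddAbove (Set.range (fun n => (A : ℝ → ℝ)^[n] x)) := by
    refine ⟨p, ?_⟩
    rintro _ ⟨n, rfl⟩
    have := hmi n hpx
    rw [hfix p hp n] at this
    exact this
  have hlim := tendsto_atTop_ciSup hmono hbdd
  set q := ⨆ n, (A : ℝ → ℝ)^[n] x with hq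
  have hqf : A q = q := isFixedPt_of_tendsto_iterate hlim A.continuous.continuousAt
  have hqx : x < q := hx.trans_le (le_ciSup hbdd 1)
  refine hG _ _ (f q) hqx (fun z h1 h2 => ?_)
  have hz : Tendsto (fun n => (A : ℝ → ℝ)^[n] z) atTop (𝓝 q) := by
    refine tendsto_of_tendsto_of_tendsto_of_le_of_le hlim tendsto_const_nhds ?_ ?_
    · intro n
      exact hmi n h1.le
    · intro n
      have := hmi n h2.le
      rw [hfix q hqf n] at this
      exact this
  have h3 : Tendsto (fun n => f ((A : ℝ → ℝ)^[n] z)) atTop (𝓝 (f q)) :=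
    (hf.tendsto q).comp hz
  simp only [iter_mem hA] at h3
  exact tendsto_nhds_unique tendsto_const_nhds h3

/-- An increasing element with a fixed point is the identity. -/
theorem FP {f : ℝ → ℝ} (hf : Continuous f) (hG : NLC f) {A : ℝ ≃ₜ ℝ}
    (hA : A ∈ symm f) (hm : StrictMono A) {p : ℝ} (hp : A p = p) : A = 1 := by
  have hp' : A⁻¹ p = p := by
    have := app_inv A p
    rwa [hp] at this
  have hm' := mono_inv hm
  have hA' := (symm f).inv_mem hA
  ext x
  show A x = x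
  by_contra hne
  rcases lt_or_gt_of_ne hne with h | h
  · have h' : x < A⁻¹ x := by
      have := hm' h
      rwa [app_inv] at this
    rcases le_total p x with h2 | h2
    · exact keyDown hf hG hA hm hp h2 h
    · exact keyUp hf hG hA' hm' hp' h2 h'
  · have h' : A⁻¹ x < x := by
      have := hm' h
      rwa [app_inv] at this
    rcases le_total p x with h2 | h2
    · exact keyDown hf hG hA' hm' hp' h2 h'
    · exact keyUp hf hG hA hm hp h2 h

/-- An increasing element that moves one point up moves all points up. -/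
lemma POS {f : ℝ → ℝ} (hf : Continuous f) (hG : NLC f) {A : ℝ ≃ₜ ℝ}
    (hA : A ∈ symm f) (hm : StrictMono A) {x0 : ℝ} (h0 : x0 < A x0) : ∀ x, x < A x := by
  intro x
  by_contra hx
  rw [not_lt] at hx
  have hc : Continuous (fun x => A x - x) := A.continuous.sub continuous_id
  obtain ⟨y, hy⟩ := mem_range_of_exists_le_of_exists_ge hc (c := 0) ⟨x, by linarith⟩
    ⟨x0, by linarith⟩
  have h1 := FP hf hG hA hm (p := y) (by linarith [hy])
  rw [h1] at h0
  exact lt_irrefl _ h0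

lemma UNB {A : ℝ ≃ₜ ℝ} (hm : StrictMono A) (h : ∀ x, x < A x) (x y : ℝ) :
    ∃ n : ℕ, y < (A ^ n) x := by
  by_contra hne
  push Not at hne
  have hmono : Monotone (fun n => (A : ℝ → ℝ)^[n] x) := by
    apply monotone_nat_of_le_succ
    intro n
    rw [Function.iterate_succ_apply]
    exact (hm.monotone.iterate n) (h x).le
  have hbdd : BddAbove (Set.range (fun n => (A : ℝ → ℝ)^[n] x)) := by
    refine ⟨y, ?_⟩
    rintro _ ⟨n, rfl⟩
    have := hne n
    rwa [pow_app] at this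
  have hlim := tendsto_atTop_ciSup hmono hbdd
  have hqf : A (⨆ n, (A : ℝ → ℝ)^[n] x) = ⨆ n, (A : ℝ → ℝ)^[n] x :=
    isFixedPt_of_tendsto_iterate hlim A.continuous.continuousAt
  exact absurd (h (⨆ n, (A : ℝ → ℝ)^[n] x)) (by rw [hqf]; exact lt_irrefl _)

lemma mono_pow {A : ℝ ≃ₜ ℝ} (hm : StrictMono A) (n : ℕ) : StrictMono (A ^ n : ℝ ≃ₜ ℝ) := by
  induction n with
  | zero => exact mono_one
  | succ n ih => rw [pow_succ]; exact mono_mul ih hm

lemma FIND {A : ℝ ≃ₜ ℝ} (hm : StrictMono A) (h : ∀ x, x < A x) {b x : ℝ} (hb : b ≤ x) :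
    ∃ n : ℕ, b ≤ ((A ^ n)⁻¹ : ℝ ≃ₜ ℝ) x ∧ ((A ^ n)⁻¹ : ℝ ≃ₜ ℝ) x < A b := by
  classical
  have hex := UNB hm h b x
  have hN := Nat.find_spec hex
  have hmin := fun k hk => Nat.find_min hex (m := k) hk
  set N := Nat.find hex with hNdef
  rcases Nat.eq_zero_or_pos N with h0 | h0
  · rw [h0] at hN
    exact absurd hN (not_lt.2 hb)
  · obtain ⟨n, hn⟩ := Nat.exists_eq_succ_of_ne_zero h0.ne'
    refine ⟨n, ?_, ?_⟩
    · have h1 : ¬ x < (A ^ n) b := hmin n (by omega)
      have h2 := (mono_inv (mono_pow hm n)).monotone (not_lt.1 h1)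
      rwa [app_inv] at h2
    · rw [hn, Nat.succ_eq_add_one, pow_succ, mul_app] at hN
      have h2 := mono_inv (mono_pow hm n) hN
      rwa [app_inv] at h2

/-- The increasing elements form a cyclic group. -/
theorem CYC {f : ℝ → ℝ} (hf : Continuous f) (hG : NLC f) :
    ∃ t ∈ symm f, StrictMono t ∧ (t = 1 ∨ ∀ x, x < t x) ∧
      ∀ g ∈ symm f, StrictMono g → g ∈ Subgroup.zpowers t := by
  by_cases hall : ∀ g ∈ symm f, StrictMono g → g = 1
  · refine ⟨1, (symm f).one_mem, mono_one, Or.inl rfl, fun g hg hm => ?_⟩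
    rw [hall g hg hm]
    exact Subgroup.one_mem _
  push Not at hall
  obtain ⟨g0, hg0, hm0, hne⟩ := hall
  have hex : ∃ g ∈ symm f, StrictMono g ∧ 0 < g 0 := by
    have h00 : g0 0 ≠ 0 := fun h => hne (FP hf hG hg0 hm0 h)
    rcases lt_or_gt_of_ne h00 with h | h
    · refine ⟨g0⁻¹, (symm f).inv_mem hg0, mono_inv hm0, ?_⟩
      have := mono_inv hm0 h
      rwa [app_inv] at this
    · exact ⟨g0, hg0, hm0, h⟩
  by_cases hmin : ∃ t ∈ symm f, StrictMono t ∧ 0 < t 0 ∧
      ∀ g ∈ symm f, StrictMono g → 0 < g 0 → t 0 ≤ g 0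
  · obtain ⟨t, ht, htm, ht0, htmin⟩ := hmin
    have hpos := POS hf hG ht htm ht0
    refine ⟨t, ht, htm, Or.inr hpos, ?_⟩
    have key : ∀ g ∈ symm f, StrictMono g → 0 ≤ g 0 → g ∈ Subgroup.zpowers t := by
      intro g hg hgm h0
      obtain ⟨n, h1, h2⟩ := FIND htm hpos h0
      have hh : (t ^ n)⁻¹ * g ∈ symm f :=
        (symm f).mul_mem ((symm f).inv_mem ((symm f).pow_mem ht n)) hg
      have hhm : StrictMono ((t ^ n)⁻¹ * g : ℝ ≃ₜ ℝ) := mono_mul (mono_inv (mono_pow htm n)) hgm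
      have h3 : ((t ^ n)⁻¹ * g : ℝ ≃ₜ ℝ) 0 = 0 := by
        by_contra h4
        have h5 : 0 < ((t ^ n)⁻¹ * g : ℝ ≃ₜ ℝ) 0 := lt_of_le_of_ne h1 (Ne.symm h4)
        exact absurd (htmin _ hh hhm h5) (not_le.2 h2)
      have h4 := FP hf hG hh hhm h3
      have h5 : g = t ^ n := by
        rw [inv_mul_eq_one] at h4
        exact h4.symm
      rw [h5]
      exact Subgroup.pow_mem _ (Subgroup.mem_zpowers t) n
    intro g hg hgm
    rcases le_total 0 (g 0) with h | h
    · exact key g hg hgm h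
    · have h2 : 0 ≤ (g⁻¹ : ℝ ≃ₜ ℝ) 0 := by
        have := (mono_inv hgm).monotone h
        rwa [app_inv] at this
      have h3 := key g⁻¹ ((symm f).inv_mem hg) (mono_inv hgm) h2
      rw [← inv_inv g]
      exact Subgroup.inv_mem _ h3
  · exfalso
    push Not at hmin
    set S : Set ℝ := {y | ∃ g ∈ symm f, StrictMono g ∧ 0 < g 0 ∧ g 0 = y} with hS
    have hSne : S.Nonempty := by
      obtain ⟨g, hg, hgm, h0⟩ := hex
      exact ⟨g 0, g, hg, hgm, h0, rfl⟩
    have hSb : BddBelow S := ⟨0, by rintro _ ⟨g, _, _, h0, rfl⟩; exact h0.le⟩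
    set m := sInf S with hmdef
    have hlt : ∀ g ∈ symm f, StrictMono g → 0 < g 0 → m < g 0 := by
      intro g hg hgm h0
      obtain ⟨g', hg', hgm', h0', hlt'⟩ := hmin g hg hgm h0
      exact (csInf_le hSb ⟨g', hg', hgm', h0', rfl⟩).trans_lt hlt'
    refine hG m (m + 1) (f m) (by linarith) (fun x hx _ => ?_)
    by_contra hne'
    have hη : 0 < |f x - f m| := abs_pos.2 (sub_ne_zero.2 hne')
    obtain ⟨δ, hδ, hδ2⟩ := Metric.continuous_iff.1 hf m _ hη
    have hε : m < m + min δ (x - m) := by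
      have := lt_min hδ (sub_pos.2 hx); linarith
    obtain ⟨y, ⟨g, hg, hgm, h0, rfl⟩, hy⟩ := exists_lt_of_csInf_lt hSne hε
    obtain ⟨g', hg', hgm', h0', hlt'⟩ := hmin g hg hgm h0
    have hm' := hlt g' hg' hgm' h0'
    have hAm : StrictMono (g * g'⁻¹ : ℝ ≃ₜ ℝ) := mono_mul hgm (mono_inv hgm')
    have hA : g * g'⁻¹ ∈ symm f := (symm f).mul_mem hg ((symm f).inv_mem hg')
    have hAb : (g * g'⁻¹ : ℝ ≃ₜ ℝ) (g' 0) = g 0 := by rw [mul_app, app_inv]
    have hpos := POS hf hG hA hAm (x0 := g' 0) (by rw [hAb]; exact hlt')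
    have hbx : g' 0 ≤ x := by
      have := min_le_right δ (x - m); linarith
    obtain ⟨n, h1, h2⟩ := FIND hAm hpos hbx
    rw [hAb] at h2
    set z := (((g * g'⁻¹) ^ n)⁻¹ : ℝ ≃ₜ ℝ) x with hz
    have hfz : f z = f x := (symm f).inv_mem ((symm f).pow_mem hA n) x
    have hd : dist z m < δ := by
      rw [Real.dist_eq, abs_of_pos (by linarith)]
      have := min_le_left δ (x - m); linarith
    have h3 := hδ2 z hd
    rw [Real.dist_eq, hfz] at h3
    exact lt_irrefl _ h3

end R309.SG
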