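import Mathlib

set_option autoImplicit false

namespace R309.SG

theorem GRP2 {G : Type} [Group G] (s : G) (hs : s ≠ 1) (h : ∀ g : G, g = 1 ∨ g = s) :
    Nonempty (G ≃* Multiplicative (ZMod 2)) := by
  have hcard : Nat.card G = 2 := by
    rw [Nat.card_eq_two_iff]
    refine ⟨1, s, hs.symm, ?_⟩
    ext g
    simpa using h g
  have hcard2 : Nat.card (Multiplicative (ZMod 2)) = 2 := by
    simp
  haveI : Fact (Nat.Prime 2) := ⟨Nat.prime_two⟩
  exact ⟨mulEquivOfPrimeCardEq hcard hcard2⟩

theorem GRP3 {G : Type} [Group G] (t : G) (hinf : Function.Injective (fun n : ℤ => t ^ n))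
    (h : ∀ g : G, g ∈ Subgroup.zpowers t) : Nonempty (G ≃* Multiplicative ℤ) := by
  refine ⟨(MulEquiv.ofBijective (zpowersHom G t) ⟨?_, ?_⟩).symm⟩
  · intro a b hab
    simp only [zpowersHom_apply] at hab
    exact Multiplicative.toAdd.injective (hinf hab)
  · intro g
    obtain ⟨n, hn⟩ := Subgroup.mem_zpowers_iff.1 (h g)
    exact ⟨Multiplicative.ofAdd n, by simpa [zpowersHom_apply] using hn⟩

theorem GRP4 {G : Type} [Group G] (s t : G) (P : Subgroup G)
    (hinf : Function.Injective (fun n : ℤ => t ^ n)) (hP : ∀ g ∈ P, g ∈ Subgroup.zpowers t)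
    (htP : t ∈ P) (hsP : s ∉ P) (hsq : ∀ g, g ∉ P → g * g = 1) (hprod : ∀ g, g ∉ P → s * g ∈ P) :
    Nonempty (G ≃* DihedralGroup 0) := by
  have hss : s * s = 1 := hsq s hsP
  have hnot : ∀ i : ℤ, s * t ^ i ∉ P := by
    intro i h
    apply hsP
    have := P.mul_mem h (P.inv_mem (P.zpow_mem htP i))
    rwa [mul_assoc, mul_inv_cancel, mul_one] at this
  have hcomm : ∀ i : ℤ, t ^ i * s = s * t ^ (-i) := by
    intro i
    have h1 := hsq _ (hnot i)
    -- s t^i s t^i = 1
    have h2 : t ^ i * s = s * (s * t ^ i * (s * t ^ i)) * t ^ (-i) := by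
      rw [show s * (s * t ^ i * (s * t ^ i)) * t ^ (-i)
        = (s * s) * t ^ i * s * (t ^ i * t ^ (-i)) by group, hss, ← zpow_add, add_neg_cancel,
        zpow_zero, mul_one, one_mul]
    rw [h2, h1, mul_one]
  let φ : DihedralGroup 0 → G := fun x => match x with
    | DihedralGroup.r i => t ^ (show ℤ from i)
    | DihedralGroup.sr i => s * t ^ (show ℤ from i)
  have hmul : ∀ x y, φ (x * y) = φ x * φ y := by
    rintro (i | i) (j | j)
    · show t ^ ((show ℤ from i) + (show ℤ from j)) = _
      exact zpow_add t _ _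
    · show s * t ^ ((show ℤ from j) - (show ℤ from i)) = t ^ (show ℤ from i) * (s * t ^ (show ℤ from j))
      rw [← mul_assoc, hcomm, mul_assoc, ← zpow_add]
      congr 2
      ring
    · show s * t ^ ((show ℤ from i) + (show ℤ from j)) = s * t ^ (show ℤ from i) * t ^ (show ℤ from j)
      rw [zpow_add, mul_assoc]
    · show t ^ ((show ℤ from j) - (show ℤ from i))
        = s * t ^ (show ℤ from i) * (s * t ^ (show ℤ from j))
      rw [show s * t ^ (show ℤ from i) * (s * t ^ (show ℤ from j))
        = s * (t ^ (show ℤ from i) * s) * t ^ (show ℤ from j) by group, hcomm, ← mul_assoc, hss,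
        one_mul, ← zpow_add]
      congr 1
      ring
  have hinj : Function.Injective φ := by
    rintro (i | i) (j | j) hij
    · exact congrArg DihedralGroup.r (hinf hij)
    · exfalso
      have h1 : t ^ (show ℤ from i) = s * t ^ (show ℤ from j) := hij
      exact hnot _ (h1 ▸ P.zpow_mem htP _)
    · exfalso
      have h1 : s * t ^ (show ℤ from i) = t ^ (show ℤ from j) := hij
      exact hnot _ (h1 ▸ P.zpow_mem htP _)
    · have h1 : s * t ^ (show ℤ from i) = s * t ^ (show ℤ from j) := hij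
      exact congrArg DihedralGroup.sr (hinf (mul_left_cancel h1))
  have hsurj : Function.Surjective φ := by
    intro g
    by_cases hg : g ∈ P
    · obtain ⟨n, hn⟩ := Subgroup.mem_zpowers_iff.1 (hP g hg)
      exact ⟨DihedralGroup.r (show ZMod 0 from n), hn⟩
    · obtain ⟨n, hn⟩ := Subgroup.mem_zpowers_iff.1 (hP _ (hprod g hg))
      refine ⟨DihedralGroup.sr (show ZMod 0 from n), ?_⟩
      show s * t ^ n = g
      rw [hn, ← mul_assoc, hss, one_mul]
  exact ⟨(MulEquiv.mk' (Equiv.ofBijective φ ⟨hinj, hsurj⟩) hmul).symm⟩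

end R309.SG
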