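import Pool.Agent.R309.SG.Rea
import Pool.Agent.R309.SG.Grp

set_option autoImplicit false

namespace R309.SG

/-- The subgroup of increasing elements. -/
def incr (f : ℝ → ℝ) : Subgroup (symm f) where
  carrier := {A | StrictMono A.1}
  mul_mem' := fun ha hb => mono_mul ha hb
  one_mem' := mono_one
  inv_mem' := fun ha => mono_inv ha

lemma mem_incr {f : ℝ → ℝ} {A : symm f} : A ∈ incr f ↔ StrictMono A.1 := Iff.rfl

lemma anti_of_not {f : ℝ → ℝ} {A : symm f} (h : A ∉ incr f) : StrictAnti A.1 :=
  (mono_or_anti A.1).resolve_left h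

/-- `FPP f`: increasing elements with a fixed point are trivial. -/
def FPP (f : ℝ → ℝ) : Prop := ∀ A ∈ symm f, StrictMono A → ∀ p, A p = p → A = 1

lemma sq_one {f : ℝ → ℝ} (hF : FPP f) {A : symm f} (h : A ∉ incr f) : A * A = 1 := by
  have ha := anti_of_not h
  obtain ⟨p, hp⟩ := anti_fix ha
  apply Subtype.ext
  refine hF _ (A * A).2 (anti_mul ha ha) p ?_
  show A.1 (A.1 p) = p
  rw [hp, hp]

lemma inj_of {t : ℝ ≃ₜ ℝ} (hm : StrictMono t) (h : ∀ x, x < t x) :
    Function.Injective (fun n : ℤ => t ^ n) := by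
  rw [injective_zpow_iff_not_isOfFinOrder, isOfFinOrder_iff_pow_eq_one]
  rintro ⟨n, hn, h1⟩
  have key : ∀ k : ℕ, (0 : ℝ) ≤ (t ^ k) 0 := by
    intro k
    induction k with
    | zero => exact le_refl _
    | succ k ih =>
      rw [pow_succ', mul_app]
      exact ih.trans (h _).le
  obtain ⟨k, rfl⟩ := Nat.exists_eq_succ_of_ne_zero hn.ne'
  have h2 : (0 : ℝ) < (t ^ (k + 1)) 0 := by
    rw [pow_succ', mul_app]
    exact (key k).trans_lt (h _)
  rw [Nat.succ_eq_add_one] at h1
  rw [h1] at h2
  exact lt_irrefl _ h2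

lemma structure_thm (f : ℝ → ℝ) (hF : FPP f) (t : ℝ ≃ₜ ℝ) (ht : t ∈ symm f) (hm : StrictMono t)
    (h : ∀ x, x < t x) (hg : ∀ g ∈ symm f, StrictMono g → g ∈ Subgroup.zpowers t) :
    ((∀ A ∈ symm f, ¬ StrictAnti A) → Nonempty (symm f ≃* Multiplicative ℤ)) ∧
    ((∃ A ∈ symm f, StrictAnti A) → Nonempty (symm f ≃* DihedralGroup 0)) := by
  set t' : symm f := ⟨t, ht⟩ with ht'
  have hinj : Function.Injective (fun n : ℤ => t' ^ n) := by
    intro a b hab
    have h1 := congrArg Subtype.val hab
    exact inj_of hm h h1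
  have hz : ∀ g ∈ incr f, g ∈ Subgroup.zpowers t' := by
    intro g hgi
    obtain ⟨n, hn⟩ := hg g.1 g.2 hgi
    exact ⟨n, Subtype.ext hn⟩
  constructor
  · intro hno
    refine GRP3 t' hinj (fun g => hz g ?_)
    by_contra hgn
    exact hno g.1 g.2 (anti_of_not hgn)
  · rintro ⟨A, hA, hAa⟩
    have hsP : (⟨A, hA⟩ : symm f) ∉ incr f := by
      intro h1
      have h2 : A 0 < A 1 := h1 one_pos
      have h3 : A 1 < A 0 := hAa one_pos
      exact lt_asymm h2 h3
    refine GRP4 (⟨A, hA⟩ : symm f) t' (incr f) hinj hz hm hsP (fun g hg => sq_one hF hg)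
      (fun g hg => anti_mul hAa (anti_of_not hg))

/-- Classification, necessity. -/
theorem nec {f : ℝ → ℝ} (hf : Continuous f) (hG : NLC f) :
    Subsingleton (symm f) ∨ Nonempty (symm f ≃* Multiplicative (ZMod 2)) ∨
      Nonempty (symm f ≃* Multiplicative ℤ) ∨ Nonempty (symm f ≃* DihedralGroup 0) := by
  have hF : FPP f := fun A hA hm p hp => FP hf hG hA hm hp
  obtain ⟨t, ht, hm, hcase, hg⟩ := CYC hf hG
  rcases hcase with h1 | h1
  · subst h1
    have hone : ∀ g : symm f, g ∈ incr f → g = 1 := by
      intro g hgi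
      have := hg g.1 g.2 hgi
      rw [Subgroup.zpowers_one_eq_bot, Subgroup.mem_bot] at this
      exact Subtype.ext this
    by_cases hall : ∀ g : symm f, g ∈ incr f
    · left
      exact ⟨fun a b => by rw [hone a (hall a), hone b (hall b)]⟩
    · right; left
      push Not at hall
      obtain ⟨s, hs⟩ := hall
      have hs1 : s ≠ 1 := fun h => hs (h ▸ (incr f).one_mem)
      refine GRP2 s hs1 (fun g => ?_)
      by_cases hgi : g ∈ incr f
      · exact Or.inl (hone g hgi)
      · right
        have h2 : s * g ∈ incr f := anti_mul (anti_of_not hs) (anti_of_not hgi)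
        have h3 := hone _ h2
        have h4 := sq_one hF hs
        exact (mul_left_cancel (h4.trans h3.symm)).symm
  · right; right
    obtain ⟨k1, k2⟩ := structure_thm f hF t ht hm h1 hg
    by_cases hno : ∀ A ∈ symm f, ¬ StrictAnti A
    · exact Or.inl (k1 hno)
    · push Not at hno
      exact Or.inr (k2 hno)

lemma tau_lt (x : ℝ) : x < tau x := by rw [tau_app]; linarith

lemma good_FPP {f : ℝ → ℝ} (h : Good f) : FPP f := by
  intro A hA hm p hp
  obtain ⟨n, rfl⟩ := h.incr hA hm
  simp only at hp ⊢
  rw [tau_zpow_app] at hp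
  have : (n : ℝ) = 0 := by linarith
  have : n = 0 := by exact_mod_cast this
  rw [this, zpow_zero]

theorem real_Z : Nonempty (symm f3 ≃* Multiplicative ℤ) :=
  (structure_thm f3 (good_FPP f3_good) tau f3_good.tau_mem tau_mono tau_lt
    (fun _ hg hm => f3_good.incr hg hm)).1 (fun _ hA => f3_no_anti hA)

theorem real_D : Nonempty (symm f4 ≃* DihedralGroup 0) :=
  (structure_thm f4 (good_FPP f4_good) tau f4_good.tau_mem tau_mono tau_lt
    (fun _ hg hm => f4_good.incr hg hm)).2
    ⟨Homeomorph.neg ℝ, fun p => f4_neg p, fun x y h => by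
      show -y < -x
      linarith⟩

theorem real_one : Subsingleton (symm (fun x => x)) := by
  refine ⟨fun a b => ?_⟩
  apply Subtype.ext
  ext x
  show a.1 x = b.1 x
  have h1 : a.1 x = x := a.2 x
  have h2 : b.1 x = x := b.2 x
  rw [h1, h2]

theorem real_two : Nonempty (symm (fun x => |x|) ≃* Multiplicative (ZMod 2)) := by
  have hneg : Homeomorph.neg ℝ ∈ symm (fun x => |x|) := fun p => abs_neg p
  refine GRP2 (⟨Homeomorph.neg ℝ, hneg⟩ : symm (fun x => |x|)) ?_ ?_
  · intro h
    have h1 := congrArg (fun A : symm (fun x : ℝ => |x|) => A.1 1) h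
    have h2 : (-1 : ℝ) = 1 := h1
    norm_num at h2
  · rintro ⟨A, hA⟩
    have hA' : ∀ x, |A x| = |x| := hA
    have h0 : A 0 = 0 := by
      have := hA' 0
      simpa using this
    rcases mono_or_anti A with hm | hm
    · left
      apply Subtype.ext
      ext x
      show A x = x
      rcases lt_trichotomy x 0 with h | h | h
      · have h1 := hm h
        rw [h0] at h1
        have := hA' x
        rw [abs_of_neg h, abs_of_neg h1] at this
        linarith
      · rw [h, h0]
      · have h1 := hm h
        rw [h0] at h1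
        have := hA' x
        rw [abs_of_pos h, abs_of_pos h1] at this
        linarith
    · right
      apply Subtype.ext
      ext x
      show A x = -x
      rcases lt_trichotomy x 0 with h | h | h
      · have h1 := hm h
        rw [h0] at h1
        have := hA' x
        rw [abs_of_neg h, abs_of_pos h1] at this
        linarith
      · rw [h, h0, neg_zero]
      · have h1 := hm h
        rw [h0] at h1
        have := hA' x
        rw [abs_of_pos h, abs_of_neg h1] at this
        linarith

end R309.SG
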