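import Pool.Agent.R309.SG.Cyc

set_option autoImplicit false

open Filter Topology

namespace R309.SG

/-- Translation by one. -/
noncomputable def tau : ℝ ≃ₜ ℝ := Homeomorph.addRight 1

lemma tau_app (x : ℝ) : tau x = x + 1 := rfl

lemma tau_inv_app (x : ℝ) : tau⁻¹ x = x - 1 := by
  have h := inv_app tau x
  rw [tau_app] at h
  linarith

lemma tau_zpow_app (n : ℤ) (x : ℝ) : (tau ^ n) x = x + n := by
  induction n using Int.induction_on generalizing x with
  | zero => simp
  | succ n ih =>
    rw [zpow_add_one, mul_app, ih, tau_app]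
    push_cast; ring
  | pred n ih =>
    rw [zpow_sub_one, mul_app, ih, tau_inv_app]
    push_cast; ring

lemma tau_mono : StrictMono tau := by
  intro x y h
  rw [tau_app, tau_app]; linarith

lemma fin_fix {B : ℝ ≃ₜ ℝ} (hm : StrictMono B) {L : Set ℝ} (hL : L.Finite)
    (hB : ∀ x ∈ L, B x ∈ L) {x : ℝ} (hx : x ∈ L) : B x = x := by
  have hit : ∀ n : ℕ, (B : ℝ → ℝ)^[n] x ∈ L := by
    intro n
    induction n with
    | zero => exact hx
    | succ n ih => rw [Function.iterate_succ_apply']; exact hB _ ih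
  by_contra hne
  rcases lt_or_gt_of_ne hne with h | h
  · exact hL.not_infinite (Set.infinite_of_injective_forall_mem
      (hm.strictAnti_iterate_of_map_lt h).injective hit)
  · exact hL.not_infinite (Set.infinite_of_injective_forall_mem
      (hm.strictMono_iterate_of_lt_map h).injective hit)

/-- The hypotheses on `f`. -/
structure Good (f : ℝ → ℝ) : Prop where
  per : ∀ x, f (x + 1) = f x
  zero : ∀ x, f x = f 0 → ∃ n : ℤ, x = n
  fin : ∀ (n : ℤ) (c : ℝ), {x | (n : ℝ) ≤ x ∧ x ≤ n + 1 ∧ f x = c}.Finite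

lemma Good.int {f : ℝ → ℝ} (h : Good f) (n : ℤ) : f n = f 0 := by
  induction n using Int.induction_on with
  | zero => simp
  | succ n ih =>
    have := h.per n
    push_cast at *
    rw [this, ih]
  | pred n ih =>
    have := h.per (-(n : ℝ) - 1)
    push_cast at *
    rw [← this, sub_add_cancel, ih]

lemma Good.tau_mem {f : ℝ → ℝ} (h : Good f) : tau ∈ symm f := fun p => h.per p

lemma Good.step {f : ℝ → ℝ} (h : Good f) {B : ℝ ≃ₜ ℝ} (hB : B ∈ symm f) (hm : StrictMono B)
    (n : ℤ) (hn : B n = n) : B (n + 1 : ℤ) ≤ (n + 1 : ℤ) ∧ ((n + 1 : ℤ) : ℝ) ≤ B (n + 1 : ℤ) := by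
  have key : ∀ C : ℝ ≃ₜ ℝ, C ∈ symm f → StrictMono C → C n = n →
      ((n + 1 : ℤ) : ℝ) ≤ C (n + 1 : ℤ) := by
    intro C hC hCm hCn
    obtain ⟨k, hk⟩ := h.zero (C (n + 1 : ℤ)) (by rw [hC, h.int])
    have h1 : C n < C (n + 1 : ℤ) := hCm (by push_cast; linarith)
    rw [hCn, hk] at h1
    rw [hk]
    have h2 : n < k := by exact_mod_cast h1
    exact_mod_cast h2
  refine ⟨?_, key B hB hm hn⟩
  have h1 := key B⁻¹ ((symm f).inv_mem hB) (mono_inv hm) (by
    have := app_inv B n
    rwa [hn] at this)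
  have h2 := hm.monotone h1
  rwa [inv_app] at h2

lemma Good.stepDown {f : ℝ → ℝ} (h : Good f) {B : ℝ ≃ₜ ℝ} (hB : B ∈ symm f) (hm : StrictMono B)
    (n : ℤ) (hn : B n = n) : B (n - 1 : ℤ) = (n - 1 : ℤ) := by
  have key : ∀ C : ℝ ≃ₜ ℝ, C ∈ symm f → StrictMono C → C n = n →
      C (n - 1 : ℤ) ≤ ((n - 1 : ℤ) : ℝ) := by
    intro C hC hCm hCn
    obtain ⟨k, hk⟩ := h.zero (C (n - 1 : ℤ)) (by rw [hC, h.int])
    have h1 : C (n - 1 : ℤ) < C n := hCm (by push_cast; linarith)
    rw [hCn, hk] at h1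
    rw [hk]
    have h2 : k < n := by exact_mod_cast h1
    have h3 : k ≤ n - 1 := by omega
    exact_mod_cast h3
  refine le_antisymm (key B hB hm hn) ?_
  have h1 := key B⁻¹ ((symm f).inv_mem hB) (mono_inv hm) (by
    have := app_inv B n
    rwa [hn] at this)
  have h2 := hm.monotone h1
  rwa [inv_app] at h2

lemma Good.fixInt {f : ℝ → ℝ} (h : Good f) {B : ℝ ≃ₜ ℝ} (hB : B ∈ symm f) (hm : StrictMono B)
    (h0 : B 0 = 0) (n : ℤ) : B n = n := by
  induction n using Int.induction_on with
  | zero => simpa using h0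
  | succ n ih =>
    have := h.step hB hm n ih
    exact le_antisymm this.1 this.2
  | pred n ih => exact h.stepDown hB hm (-n) ih

lemma Good.fix {f : ℝ → ℝ} (h : Good f) {B : ℝ ≃ₜ ℝ} (hB : B ∈ symm f) (hm : StrictMono B)
    (h0 : B 0 = 0) : B = 1 := by
  ext x
  show B x = x
  have hi := h.fixInt hB hm h0
  refine fin_fix hm (h.fin ⌊x⌋ (f x)) ?_ ⟨Int.floor_le x, (Int.lt_floor_add_one x).le, rfl⟩
  rintro y ⟨h1, h2, h3⟩
  refine ⟨?_, ?_, ?_⟩
  · have := hm.monotone h1
    rwa [hi] at this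
  · have := hm.monotone h2
    have h4 := hi (⌊x⌋ + 1)
    push_cast at h4
    rwa [h4] at this
  · rw [hB, h3]

/-- The increasing elements are the integer translations. -/
theorem Good.incr {f : ℝ → ℝ} (h : Good f) {A : ℝ ≃ₜ ℝ} (hA : A ∈ symm f) (hm : StrictMono A) :
    A ∈ Subgroup.zpowers tau := by
  obtain ⟨n, hn⟩ := h.zero (A 0) (hA 0)
  have hB : (tau ^ n)⁻¹ * A ∈ symm f :=
    (symm f).mul_mem ((symm f).inv_mem ((symm f).zpow_mem h.tau_mem n)) hA
  have hmt : StrictMono (tau ^ n : ℝ ≃ₜ ℝ) := by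
    intro x y hxy
    rw [tau_zpow_app, tau_zpow_app]; linarith
  have h0 : ((tau ^ n)⁻¹ * A : ℝ ≃ₜ ℝ) 0 = 0 := by
    rw [mul_app, hn]
    have := app_inv (tau ^ n) 0
    rw [tau_zpow_app] at this
    simpa using this
  have := h.fix hB (mono_mul (mono_inv hmt) hm) h0
  rw [inv_mul_eq_one] at this
  exact ⟨n, this⟩

lemma cont_fract {g : ℝ → ℝ} (hg : Continuous g) (h : g 0 = g 1) :
    Continuous (fun x : ℝ => g (Int.fract x)) :=
  ContinuousOn.comp_fract'' hg.continuousOn h

lemma fin_fract {g : ℝ → ℝ} (c : ℝ) (L : Set ℝ) (hL : L.Finite)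
    (h : ∀ u, g u = c → u ∈ L) (n : ℤ) :
    {x : ℝ | (n : ℝ) ≤ x ∧ x ≤ n + 1 ∧ g (Int.fract x) = c}.Finite := by
  refine ((hL.image (fun u => (n : ℝ) + u)).union (Set.finite_singleton ((n : ℝ) + 1))).subset ?_
  rintro x ⟨h1, h2, h3⟩
  rcases h2.lt_or_eq with h4 | h4
  · left
    refine ⟨Int.fract x, h _ h3, ?_⟩
    have : ⌊x⌋ = n := Int.floor_eq_iff.2 ⟨h1, h4⟩
    show (n : ℝ) + Int.fract x = x
    rw [Int.fract, this]; ring
  · right
    exact h4

/-- symmetric function -/
noncomputable def f4 (x : ℝ) : ℝ := min (Int.fract x) (1 - Int.fract x)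

lemma f4_cont : Continuous f4 :=
  cont_fract (g := fun u => min u (1 - u)) (by fun_prop) (by norm_num)

lemma f4_good : Good f4 where
  per := fun x => by unfold f4; rw [Int.fract_add_one]
  zero := by
    intro x hx
    unfold f4 at hx
    rw [Int.fract_zero] at hx
    have h1 := Int.fract_lt_one x
    have h0 := Int.fract_nonneg x
    refine ⟨⌊x⌋, ?_⟩
    have h2 : Int.fract x = 0 := by
      rcases min_choice (Int.fract x) (1 - Int.fract x) with h | h
      · rw [h] at hx; simpa using hx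
      · rw [h] at hx
        norm_num at hx
        linarith
    have h3 := Int.floor_add_fract x
    rw [h2] at h3
    linarith
  fin := by
    intro n c
    refine fin_fract (g := fun u => min u (1 - u)) c {c, 1 - c} (by simp) ?_ n
    intro u hu
    rcases min_choice u (1 - u) with h | h
    · left; change min u (1 - u) = c at hu; rw [h] at hu; exact hu
    · right; change min u (1 - u) = c at hu; rw [h] at hu; show u = 1 - c; linarith

lemma f4_neg (x : ℝ) : f4 (-x) = f4 x := by
  unfold f4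
  by_cases h : Int.fract x = 0
  · have h2 : Int.fract (-x) = 0 := by
      rw [Int.fract_neg_eq_zero]; exact h
    rw [h, h2]
  · rw [Int.fract_neg h, min_comm]
    congr 1
    ring

/-- asymmetric function -/
noncomputable def g3 (u : ℝ) : ℝ := max (min (12 * u) (5 - 8 * u)) (min (4 * u - 1) (8 - 8 * u))

noncomputable def f3 (x : ℝ) : ℝ := g3 (Int.fract x)

lemma f3_cont : Continuous f3 :=
  cont_fract (g := g3) (by unfold g3; fun_prop) (by unfold g3; norm_num)

lemma g3_mem (u c : ℝ) (h : g3 u = c) :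
    u ∈ ({c / 12, (5 - c) / 8, (c + 1) / 4, (8 - c) / 8} : Set ℝ) := by
  unfold g3 at h
  simp only [Set.mem_insert_iff, Set.mem_singleton_iff]
  rcases max_choice (min (12 * u) (5 - 8 * u)) (min (4 * u - 1) (8 - 8 * u)) with h1 | h1
  · rcases min_choice (12 * u) (5 - 8 * u) with h2 | h2
    · left; rw [h1, h2] at h; linarith
    · right; left; rw [h1, h2] at h; linarith
  · rcases min_choice (4 * u - 1) (8 - 8 * u) with h2 | h2
    · right; right; left; rw [h1, h2] at h; linarith
    · right; right; right; rw [h1, h2] at h; linarith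

lemma f3_good : Good f3 where
  per := fun x => by unfold f3; rw [Int.fract_add_one]
  zero := by
    intro x hx
    have h0 : f3 0 = 0 := by unfold f3 g3; rw [Int.fract_zero]; norm_num
    rw [h0] at hx
    have h1 := Int.fract_lt_one x
    have h0' := Int.fract_nonneg x
    refine ⟨⌊x⌋, ?_⟩
    have h2 : Int.fract x = 0 := by
      by_contra hne
      have hpos : 0 < Int.fract x := lt_of_le_of_ne h0' (Ne.symm hne)
      unfold f3 g3 at hx
      have h3 := (max_le_iff.1 hx.le)
      rcases min_le_iff.1 h3.1 with h | h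
      · linarith
      · rcases min_le_iff.1 h3.2 with h' | h'
        · linarith
        · linarith
    have h3 := Int.floor_add_fract x
    rw [h2] at h3
    linarith
  fin := fun n c => fin_fract (g := g3) c _ (by simp) (fun u hu => g3_mem u c hu) n

lemma f3_at (n : ℤ) (u : ℝ) (h0 : 0 ≤ u) (h1 : u < 1) : f3 (n + u) = g3 u := by
  unfold f3
  rw [Int.fract_intCast_add, Int.fract_eq_self.2 ⟨h0, h1⟩]

lemma g3_three {u : ℝ} (h : g3 u = 3) : u = 1 / 4 := by
  unfold g3 at h
  rcases max_choice (min (12 * u) (5 - 8 * u)) (min (4 * u - 1) (8 - 8 * u)) with h1 | h1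
  · rw [h1] at h
    have h2 := le_min_iff.1 h.ge
    linarith [h2.1, h2.2]
  · rw [h1] at h
    have h2 := le_min_iff.1 h.ge
    linarith [h2.1, h2.2]

lemma g3_small {u : ℝ} (h0 : 0 < u) (h1 : u < 1 / 4) : g3 u = 12 * u := by
  unfold g3
  rw [min_eq_left (by linarith), max_eq_left]
  exact (min_le_left _ _).trans (by linarith)

/-- No decreasing homeomorphism preserves `f3`. -/
theorem f3_no_anti {A : ℝ ≃ₜ ℝ} (hA : A ∈ symm f3) : ¬ StrictAnti A := by
  intro hm
  -- normalise so that `A 0 = 0`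
  obtain ⟨n, hn⟩ := f3_good.zero (A 0) (hA 0)
  set B : ℝ ≃ₜ ℝ := (tau ^ n)⁻¹ * A with hBdef
  have hB : B ∈ symm f3 :=
    (symm f3).mul_mem ((symm f3).inv_mem ((symm f3).zpow_mem f3_good.tau_mem n)) hA
  have hBx : ∀ x, B x = A x - n := by
    intro x
    have h := inv_app (tau ^ n) (A x)
    rw [tau_zpow_app] at h
    show (tau ^ n)⁻¹ (A x) = _
    linarith
  have hBm : StrictAnti B := by
    intro x y hxy
    rw [hBx, hBx]
    have := hm hxy
    linarith
  have hB0 : B 0 = 0 := by rw [hBx, hn]; ring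
  -- `B (1/4) > -1`
  have h1 : -1 < B (1 / 4) := by
    obtain ⟨k, hk⟩ := f3_good.zero (B⁻¹ (-1)) (by
      have h := (symm f3).inv_mem hB (-1)
      rw [h]
      have := f3_good.int (-1)
      push_cast at this
      exact this)
    have h2 : B (k : ℝ) = -1 := by rw [← hk, inv_app]
    have h3 : (0 : ℝ) < k := by
      by_contra hk0
      have := hBm.antitone (not_lt.1 hk0)
      rw [hB0, h2] at this
      linarith
    have h4 : (1 : ℝ) ≤ k := by
      have : (0 : ℤ) < k := by exact_mod_cast h3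
      exact_mod_cast this
    have h5 : B (k : ℝ) < B (1 / 4) := hBm (by linarith)
    rw [h2] at h5
    exact h5
  have h2 : B (1 / 4) < 0 := by
    have := hBm (show (0 : ℝ) < 1 / 4 by norm_num)
    rwa [hB0] at this
  have hq : ∀ y, -1 < y → y < 0 → f3 y = g3 (y + 1) := by
    intro y hy1 hy2
    have := f3_at (-1) (y + 1) (by linarith) (by linarith)
    push_cast at this
    rw [← this]
    congr 1
    ring
  have h3 : B (1 / 4) = -3 / 4 := by
    have h4 : f3 (B (1 / 4)) = f3 (1 / 4) := hB _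
    have h5 : f3 (1 / 4) = 3 := by
      have := f3_at 0 (1 / 4) (by norm_num) (by norm_num)
      push_cast at this
      rw [zero_add] at this
      rw [this]; unfold g3; norm_num
    rw [h5, hq _ h1 h2] at h4
    have := g3_three h4
    linarith
  have key : ∀ y, -3 / 4 < y → y < 0 → g3 (y + 1) = 1 → B (1 / 12) = y := by
    intro y hy1 hy2 hy
    have ha : 0 < B⁻¹ y := by
      by_contra h
      have := hBm.antitone (not_lt.1 h)
      rw [inv_app, hB0] at this
      linarith
    have hb : B⁻¹ y < 1 / 4 := by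
      by_contra h
      have := hBm.antitone (not_lt.1 h)
      rw [inv_app, h3] at this
      linarith
    have hc : f3 (B⁻¹ y) = f3 y := (symm f3).inv_mem hB y
    rw [hq y (by linarith) hy2, hy] at hc
    have hd := f3_at 0 (B⁻¹ y) ha.le (by linarith)
    push_cast at hd
    rw [zero_add, g3_small ha hb, hc] at hd
    have he : B⁻¹ y = 1 / 12 := by linarith
    rw [← he, inv_app]
  have k1 := key (-1 / 2) (by norm_num) (by norm_num) (by unfold g3; norm_num)
  have k2 := key (-1 / 8) (by norm_num) (by norm_num) (by unfold g3; norm_num)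
  rw [k1] at k2
  norm_num at k2

end R309.SG
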